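import Pool.Agent.Helper21.CT.XQK

/-!
The line `x_B` for classes with small orders (MP_c75db0): a root of the discriminant which satisfies
the conditions at the threshold is determined by the exact sign test. Real part.
-/

set_option autoImplicit false
set_option exponentiation.threshold 4000
noncomputable section
namespace Pool.Agent.Helper57.XL

open Pool.Agent.Helper6.MONO (fBx fB fB_eq xA xA_eq Kp)
open Pool.Agent.Helper6.MONO.XTH (Bq Qf chkB)
open Pool.Agent.Helper21.XB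

/-! ### the cubic -/

/-- the interpolation of the cubic `fBx S K` at the points `L < x < y` -/
theorem cub (S K L x y : ℝ) : fBx S K x * (y - L) = fBx S K L * (y - x) + fBx S K y * (x - L) -
    (x - L) * (y - x) * (y - L) * (K ^ 2 * (4 * K * (L + x + y) + S ^ 2 + 12 * S)) := by
  unfold fBx
  ring

theorem conv_pos {S K L x y : ℝ} (hK : 0 < K) (h : 0 < 12 * K * L + S ^ 2 + 12 * S) (hx : L < x)
    (hy : L < y) : 0 < K ^ 2 * (4 * K * (L + x + y) + S ^ 2 + 12 * S) := by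
  have h1 : 4 * K * (3 * L) ≤ 4 * K * (L + x + y) :=
    mul_le_mul_of_nonneg_left (by linarith) (by linarith)
  exact mul_pos (pow_pos hK 2) (by linarith)

/-- nonnegative values only to the right of the root -/
theorem root_P {S K L x x0 : ℝ} (hK : 0 < K) (h : 0 < 12 * K * L + S ^ 2 + 12 * S)
    (hL : fBx S K L ≤ 0) (h0 : fBx S K x0 = 0) (hx0 : L < x0) (hx : L < x)
    (hf : 0 ≤ fBx S K x) : x0 ≤ x := by
  by_contra hcon
  push Not at hcon
  have e := cub S K L x x0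
  have hp := conv_pos hK h hx hx0
  have p1 : 0 < (x - L) * (x0 - x) * (x0 - L) :=
    mul_pos (mul_pos (by linarith) (by linarith)) (by linarith)
  have p2 := mul_pos p1 hp
  have p3 : fBx S K L * (x0 - x) ≤ 0 := mul_nonpos_of_nonpos_of_nonneg hL (by linarith)
  have p4 : 0 ≤ fBx S K x * (x0 - L) := mul_nonneg hf (by linarith)
  rw [h0, zero_mul, add_zero] at e
  linarith

/-- nonpositive values only to the left of the root -/
theorem root_N {S K L x x0 : ℝ} (hK : 0 < K) (h : 0 < 12 * K * L + S ^ 2 + 12 * S)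
    (hL : fBx S K L ≤ 0) (h0 : fBx S K x0 = 0) (hx0 : L < x0) (hx : L < x)
    (hf : fBx S K x ≤ 0) : x ≤ x0 := by
  by_contra hcon
  push Not at hcon
  have e := cub S K L x0 x
  have hp := conv_pos hK h hx0 hx
  have p1 : 0 < (x0 - L) * (x - x0) * (x - L) :=
    mul_pos (mul_pos (by linarith) (by linarith)) (by linarith)
  have p2 := mul_pos p1 hp
  have p3 : fBx S K L * (x - x0) ≤ 0 := mul_nonpos_of_nonpos_of_nonneg hL (by linarith)
  have p4 : fBx S K x * (x0 - L) ≤ 0 := mul_nonpos_of_nonpos_of_nonneg hf (by linarith)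
  rw [h0, zero_mul] at e
  linarith

/-! ### the test -/

theorem quad_neg {q s w x1 x2 x : ℝ} (hq : 0 ≤ q) (h1 : q * x1 ^ 2 + s * x1 + w < 0)
    (h2 : q * x2 ^ 2 + s * x2 + w < 0) (hx1 : x1 ≤ x) (hx2 : x ≤ x2) :
    q * x ^ 2 + s * x + w < 0 := by
  have h3 : 0 ≤ q * ((x - x1) * (x2 - x)) :=
    mul_nonneg hq (mul_nonneg (by linarith) (by linarith))
  rcases le_total 0 (q * (x1 + x2) + s) with h | h
  · have h4 : 0 ≤ (q * (x1 + x2) + s) * (x2 - x) := mul_nonneg h (by linarith)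
    nlinarith
  · have h4 : 0 ≤ -(q * (x1 + x2) + s) * (x - x1) := mul_nonneg (by linarith) (by linarith)
    nlinarith

/-- a corner: `(x_A of the two narrow kappas) > L` -/
def cnr (L m c : ℤ) : Bool := decide (m ^ 2 + c ^ 2 * 79228162514264337593543950336 -
  25108406941546723055343157692830665664409421777856138051584 + L * m * c < 0)

/-- the tests for two narrow kappas in `[al, ah]`, `[bl, bh]` and a third one in `[a, b]`, all in the
unit `2 ^ (-48)`; `s`: lower bound of the sum of the squares minus `3` -/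
def tA1 (L mh a s : ℤ) : Bool :=
  decide (0 ≤ s ∧ 0 < s ^ 2 + 950737950171172051122527404032 * s + 12 * L * mh * a ∧
    0 ≤ 4 * a * s + 1901475900342344102245054808064 * a + 12 * L * mh)
def tA (L al ah bl bh a b : ℤ) : Bool :=
  decide (0 < al ∧ 0 < bl ∧ 0 < a ∧ L < 0) && (cnr L (al * bl) a && (cnr L (al * bl) b &&
    (cnr L (ah * bh) a && (cnr L (ah * bh) b &&
      tA1 L (ah * bh) a (al ^ 2 + bl ^ 2 + a ^ 2 - 237684487542793012780631851008)))))

theorem u2 : (79228162514264337593543950336 : ℤ) = 2 ^ 96 := by norm_num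
theorem u4 : (25108406941546723055343157692830665664409421777856138051584 : ℤ) = 4 * 2 ^ 192 := by
  norm_num

section

variable {L al ah bl bh a b : ℤ} {A B C : ℝ}

theorem cnr_ok {m c : ℤ} (h : cnr L m c = true) :
    (m : ℝ) ^ 2 + (c : ℝ) ^ 2 * 2 ^ 96 - 4 * 2 ^ 192 + L * m * c < 0 := by
  have h1 := of_decide_eq_true h
  rw [u2, u4] at h1
  exact_mod_cast h1

/-- both tests -/
theorem tA_ok (h : tA L al ah bl bh a b = true) (hA : (al : ℝ) ≤ A ∧ A ≤ ah)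
    (hB : (bl : ℝ) ≤ B ∧ B ≤ bh) (hC : (a : ℝ) ≤ C ∧ C ≤ b) :
    (0 < A ∧ 0 < B ∧ 0 < C) ∧ (A * B) ^ 2 + C ^ 2 * 2 ^ 96 - 4 * 2 ^ 192 + L * (A * B) * C < 0 ∧
      0 < (A ^ 2 + B ^ 2 + C ^ 2 - 3 * 2 ^ 96) ^ 2 +
        12 * 2 ^ 96 * (A ^ 2 + B ^ 2 + C ^ 2 - 3 * 2 ^ 96) + 12 * L * (A * B * C) := by
  unfold tA at h
  simp only [Bool.and_eq_true] at h
  obtain ⟨g0, g1, g2, g3, g4, g5⟩ := h
  obtain ⟨k1, k2, k3, k4⟩ := of_decide_eq_true g0
  unfold tA1 at g5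
  obtain ⟨m1, m2, m3⟩ := of_decide_eq_true g5
  have r1 : (0 : ℝ) < al := by exact_mod_cast k1
  have r2 : (0 : ℝ) < bl := by exact_mod_cast k2
  have r3 : (0 : ℝ) < a := by exact_mod_cast k3
  have r4 : (L : ℝ) < 0 := by exact_mod_cast k4
  have pA : 0 < A := by linarith [hA.1]
  have pB : 0 < B := by linarith [hB.1]
  have pC : 0 < C := by linarith [hC.1]
  have ml : ((al * bl : ℤ) : ℝ) ≤ A * B := by
    push_cast
    exact mul_le_mul hA.1 hB.1 r2.le pA.le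
  have mh : A * B ≤ ((ah * bh : ℤ) : ℝ) := by
    push_cast
    exact mul_le_mul hA.2 hB.2 pB.le (pA.le.trans hA.2)
  refine ⟨⟨pA, pB, pC⟩, ?_, ?_⟩
  · -- convex in each variable
    have c1 := cnr_ok g1
    have c2 := cnr_ok g2
    have c3 := cnr_ok g3
    have c4 := cnr_ok g4
    have key : ∀ m : ℝ, m ^ 2 + (a : ℝ) ^ 2 * 2 ^ 96 - 4 * 2 ^ 192 + L * m * a < 0 →
        m ^ 2 + (b : ℝ) ^ 2 * 2 ^ 96 - 4 * 2 ^ 192 + L * m * b < 0 →
        m ^ 2 + C ^ 2 * 2 ^ 96 - 4 * 2 ^ 192 + L * m * C < 0 := by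
      intro m e1 e2
      have e3 := quad_neg (q := 2 ^ 96) (s := L * m) (w := m ^ 2 - 4 * 2 ^ 192) (x1 := a) (x2 := b)
        (x := C) (by positivity) (by linarith) (by linarith) hC.1 hC.2
      linarith
    have e1 := key _ c1 c2
    have e2 := key _ c3 c4
    have e3 := quad_neg (q := 1) (s := L * C) (w := C ^ 2 * 2 ^ 96 - 4 * 2 ^ 192)
      (x1 := ((al * bl : ℤ) : ℝ)) (x2 := ((ah * bh : ℤ) : ℝ)) (x := A * B) (by norm_num)
      (by linarith) (by linarith) ml mh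
    linarith
  · -- monotone
    set s : ℝ := (al : ℝ) ^ 2 + (bl : ℝ) ^ 2 + (a : ℝ) ^ 2 - 3 * 2 ^ 96 with hs
    have es : ((al ^ 2 + bl ^ 2 + a ^ 2 - 237684487542793012780631851008 : ℤ) : ℝ) = s := by
      rw [hs]
      push_cast
      norm_num
    set M : ℝ := ((ah * bh : ℤ) : ℝ) with hM
    have n1 : (0 : ℝ) ≤ s := by
      rw [← es]
      exact_mod_cast m1
    have n2 : 0 < s ^ 2 + 12 * 2 ^ 96 * s + 12 * L * M * a := by
      rw [← es, hM]
      have : (0 : ℝ) < ((((al ^ 2 + bl ^ 2 + a ^ 2 - 237684487542793012780631851008) ^ 2 +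
        950737950171172051122527404032 *
          (al ^ 2 + bl ^ 2 + a ^ 2 - 237684487542793012780631851008) +
        12 * L * (ah * bh) * a : ℤ)) : ℝ) := by exact_mod_cast m2
      refine this.trans_le (le_of_eq ?_)
      push_cast
      norm_num
    have n3 : 0 ≤ 4 * (a : ℝ) * s + 24 * 2 ^ 96 * a + 12 * L * M := by
      rw [← es, hM]
      have : (0 : ℝ) ≤ (((4 * a * (al ^ 2 + bl ^ 2 + a ^ 2 - 237684487542793012780631851008) +
        1901475900342344102245054808064 * a + 12 * L * (ah * bh) : ℤ)) : ℝ) := by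
        exact_mod_cast m3
      refine this.trans (le_of_eq ?_)
      push_cast
      norm_num
    have qA : (al : ℝ) ^ 2 ≤ A ^ 2 := pow_le_pow_left₀ r1.le hA.1 2
    have qB : (bl : ℝ) ^ 2 ≤ B ^ 2 := pow_le_pow_left₀ r2.le hB.1 2
    set T : ℝ := A ^ 2 + B ^ 2 + C ^ 2 - 3 * 2 ^ 96 with hT
    -- `T ≥ s + (C^2 - a^2)`
    have t1 : s + (C ^ 2 - (a : ℝ) ^ 2) ≤ T := by linarith
    have t0 : 0 ≤ C ^ 2 - (a : ℝ) ^ 2 := by
      have : (a : ℝ) ^ 2 ≤ C ^ 2 := pow_le_pow_left₀ r3.le hC.1 2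
      linarith
    have t2 : (s + (C ^ 2 - (a : ℝ) ^ 2)) ^ 2 ≤ T ^ 2 :=
      pow_le_pow_left₀ (by linarith) t1 2
    have t3 : 12 * (L : ℝ) * (M * C) ≤ 12 * L * (A * B * C) := by
      have h1 : A * B * C ≤ M * C := mul_le_mul_of_nonneg_right mh pC.le
      nlinarith
    have d0 : 0 ≤ C - a := by linarith [hC.1]
    have t4 : 2 * (a : ℝ) * (C - a) ≤ C ^ 2 - (a : ℝ) ^ 2 := by nlinarith
    have t5 : s ^ 2 + 4 * a * s * (C - a) ≤ (s + (C ^ 2 - (a : ℝ) ^ 2)) ^ 2 := by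
      have h1 : 2 * s * (2 * (a : ℝ) * (C - a)) ≤ 2 * s * (C ^ 2 - (a : ℝ) ^ 2) :=
        mul_le_mul_of_nonneg_left t4 (by linarith)
      nlinarith [sq_nonneg (C ^ 2 - (a : ℝ) ^ 2)]
    have t6 := mul_nonneg n3 d0
    have p96 : (0 : ℝ) < 2 ^ 96 := by positivity
    have t7 : 12 * 2 ^ 96 * (s + 2 * (a : ℝ) * (C - a)) ≤ 12 * 2 ^ 96 * T :=
      mul_le_mul_of_nonneg_left (by linarith) (by positivity)
    have e : s ^ 2 + 12 * 2 ^ 96 * s + 12 * L * M * a +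
        (4 * (a : ℝ) * s + 24 * 2 ^ 96 * a + 12 * L * M) * (C - a) =
        (s ^ 2 + 4 * a * s * (C - a)) + 12 * 2 ^ 96 * (s + 2 * (a : ℝ) * (C - a)) +
          12 * L * (M * C) := by ring
    linarith

end

/-- the two conditions for real kappas -/
theorem tA_real {L al ah bl bh c d : ℤ} (h : tA L al ah bl bh c d = true) {x y z : ℝ}
    (hx : (al : ℝ) ≤ 2 ^ 48 * x ∧ 2 ^ 48 * x ≤ ah) (hy : (bl : ℝ) ≤ 2 ^ 48 * y ∧ 2 ^ 48 * y ≤ bh)
    (hz : (c : ℝ) ≤ 2 ^ 48 * z ∧ 2 ^ 48 * z ≤ d) :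
    0 < KK x y z ∧ (L : ℝ) / 2 ^ 48 < (4 - z ^ 2 - x ^ 2 * y ^ 2) / (x * y * z) ∧
      0 < 12 * KK x y z * ((L : ℝ) / 2 ^ 48) + SS x y z ^ 2 + 12 * SS x y z := by
  obtain ⟨⟨p1, p2, p3⟩, h1, h2⟩ := tA_ok h hx hy hz
  have q1 : 0 < x := by
    by_contra hc
    push Not at hc
    nlinarith
  have q2 : 0 < y := by
    by_contra hc
    push Not at hc
    nlinarith
  have q3 : 0 < z := by
    by_contra hc
    push Not at hc
    nlinarith
  have pK : 0 < x * y * z := mul_pos (mul_pos q1 q2) q3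
  refine ⟨pK, ?_, ?_⟩
  · rw [lt_div_iff₀ pK]
    have e : (2 ^ 48 * x * (2 ^ 48 * y)) ^ 2 + (2 ^ 48 * z) ^ 2 * 2 ^ 96 - 4 * 2 ^ 192 +
        (L : ℝ) * (2 ^ 48 * x * (2 ^ 48 * y)) * (2 ^ 48 * z) =
        2 ^ 192 * (x ^ 2 * y ^ 2 + z ^ 2 - 4 + (L : ℝ) / 2 ^ 48 * (x * y * z)) := by
      ring
    rw [e] at h1
    have h3 := (pos_iff_neg_of_mul_neg h1).1 (by positivity)
    linarith
  · unfold SS KK
    have e : ((2 ^ 48 * x) ^ 2 + (2 ^ 48 * y) ^ 2 + (2 ^ 48 * z) ^ 2 - 3 * 2 ^ 96) ^ 2 +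
        12 * 2 ^ 96 * ((2 ^ 48 * x) ^ 2 + (2 ^ 48 * y) ^ 2 + (2 ^ 48 * z) ^ 2 - 3 * 2 ^ 96) +
        12 * (L : ℝ) * (2 ^ 48 * x * (2 ^ 48 * y) * (2 ^ 48 * z)) =
        2 ^ 192 * (12 * (x * y * z) * ((L : ℝ) / 2 ^ 48) + (x ^ 2 + y ^ 2 + z ^ 2 - 3) ^ 2 +
          12 * (x ^ 2 + y ^ 2 + z ^ 2 - 3)) := by
      field_simp
      ring
    rw [e] at h2
    exact (pos_iff_pos_of_mul_pos h2).1 (by positivity)

end Pool.Agent.Helper57.XL
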