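import Pool.Agent.Helper57.XL.A
import Pool.Agent.Helper84.XL.C

/-!
The line `x_B` for classes with two known orders and a tail: the threshold is within `n` of the
quadratic polynomial of the weight of the tail, from a Boolean test on the box of the weight; also
the existence of the threshold.
-/

set_option autoImplicit false
set_option exponentiation.threshold 4000
noncomputable section
namespace Pool.Agent.Helper57.XL

open Pool.Agent.Helper81.MIT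
open Pool.Agent.Helper86.C75 (Z)
open Pool.Agent.Helper90.KMO (zv)
open Pool.Agent.Helper6.MONO (fBx fB fB_eq xA xA_eq Kp Thr xA_gt xA_le2 thr_Kp2 CertAt ZF)
open Pool.Agent.Helper6.MONO.XTH (Bq Qf chkB)
open Pool.Agent.Helper21.XB
open Pool.Agent.Helper21.KTE (KS)
open Pool.Agent.Helper84.XL (q3 par)

/-- controls depending on the last variable only -/
def XC3 (x y z : ℤ) : Fin 3 → Fin 3 → Fin 3 → ℤ := fun _ _ c => (![x, y, z] : Fin 3 → ℤ) c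

theorem Qf_XC3 (x y z : ℤ) (t u v : ℝ) : Qf (XC3 x y z) t u v = q3 x y z v := by
  rw [Qf_nest]
  have h1 : ∀ c : Fin 3, ∑ b, Bq u b * ∑ a, Bq t a * (XC3 x y z a b c : ℝ) =
      (((![x, y, z] : Fin 3 → ℤ) c : ℤ) : ℝ) := by
    intro c
    rw [Bq_sum, Bq_sum, Bq_sum, Bq_sum]
    show (1 - u) ^ 2 * ((1 - t) ^ 2 * (((![x, y, z] : Fin 3 → ℤ) c : ℤ) : ℝ) + 2 * t * (1 - t) *
      (((![x, y, z] : Fin 3 → ℤ) c : ℤ) : ℝ) + t ^ 2 * (((![x, y, z] : Fin 3 → ℤ) c : ℤ) : ℝ)) +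
      2 * u * (1 - u) * ((1 - t) ^ 2 * (((![x, y, z] : Fin 3 → ℤ) c : ℤ) : ℝ) + 2 * t * (1 - t) *
      (((![x, y, z] : Fin 3 → ℤ) c : ℤ) : ℝ) + t ^ 2 * (((![x, y, z] : Fin 3 → ℤ) c : ℤ) : ℝ)) +
      u ^ 2 * ((1 - t) ^ 2 * (((![x, y, z] : Fin 3 → ℤ) c : ℤ) : ℝ) + 2 * t * (1 - t) *
      (((![x, y, z] : Fin 3 → ℤ) c : ℤ) : ℝ) + t ^ 2 * (((![x, y, z] : Fin 3 → ℤ) c : ℤ) : ℝ)) = _
    ring
  rw [Finset.sum_congr rfl fun c _ => by rw [h1 c]]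
  rw [Bq_sum]
  rfl

theorem q3_ge {x y z m s : ℝ} (hx : m ≤ x) (hy : m ≤ y) (hz : m ≤ z) (h0 : 0 ≤ s) (h1 : s ≤ 1) :
    m ≤ q3 x y z s := by
  unfold q3
  have a0 := mul_le_mul_of_nonneg_left hx (sq_nonneg (1 - s))
  have a1 := mul_le_mul_of_nonneg_left hy (by
    have := mul_nonneg h0 (by linarith : (0 : ℝ) ≤ 1 - s)
    linarith : 0 ≤ 2 * s * (1 - s))
  have a2 := mul_le_mul_of_nonneg_left hz (sq_nonneg s)
  have e : (1 - s) ^ 2 * m + 2 * s * (1 - s) * m + s ^ 2 * m = m := by ring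
  linarith

theorem q3_const (m s : ℝ) : q3 m m m s = m := by
  unfold q3
  ring

/-- the last part of `chkA` -/
def chkA1 (m ml hi : ℤ) : Bool :=
  decide (m < 0 ∧ 0 ≤ 2 * ml + m * hi ∧
    2 * hi * 79228162514264337593543950336 + m * ml ≤ 0 ∧
    0 ≤ ml ^ 2 + hi ^ 2 * 79228162514264337593543950336 -
      25108406941546723055343157692830665664409421777856138051584 + m * ml * hi)

/-- THE TEST of the box `[lo, hi]` of the weight of the tail: `L` lies below `x_A` and below the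
largest root, the polynomial with the controls `x y z` is within `n` of the largest root -/
def chkX (L rc : ℤ) (s0 s1 : KS) (lo hi n : ℕ) (x y z : ℤ) : Bool :=
  decide (L + (n : ℤ) < x ∧ L + (n : ℤ) < y ∧ L + (n : ℤ) < z) &&
    (tA L (kl s0) (kh s0) (kl s1) (kh s1) lo hi &&
      (chkB ![kl s0, kl s1, (lo : ℤ)] ![kh s0, kh s1, (hi : ℤ)] (XC3 (L + rc) (L + rc) (L + rc)) rc &&
        chkB ![kl s0, kl s1, (lo : ℤ)] ![kh s0, kh s1, (hi : ℤ)] (XC3 x y z) (n : ℤ)))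

theorem par_01 {lo hi : ℕ} {κ : ℝ} (h : lo < hi) (h1 : (lo : ℝ) ≤ 2 ^ 48 * κ)
    (h2 : 2 ^ 48 * κ ≤ (hi : ℝ)) : (0 ≤ par lo hi κ ∧ par lo hi κ ≤ 1) ∧
      κ = ((1 - par lo hi κ) * (lo : ℤ) + par lo hi κ * (hi : ℤ)) / 2 ^ 48 := by
  have hd : (0 : ℝ) < hi - lo := by
    have : (lo : ℝ) < hi := by exact_mod_cast h
    linarith
  refine ⟨⟨div_nonneg (by linarith) hd.le, ?_⟩, ?_⟩
  · unfold par
    rw [div_le_one hd]
    linarith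
  · unfold par
    push_cast
    field_simp
    ring

theorem kls {s : KS} {κ : ℝ} (h : s.ok κ) : (kl s : ℝ) ≤ 2 ^ 48 * κ ∧ 2 ^ 48 * κ ≤ (kh s : ℝ) := by
  cases s with
  | E n =>
    have h' := abs_le.1 (show |2 ^ 48 * κ - n| ≤ 1 from h)
    show ((((n : ℕ) : ℤ) - 1 : ℤ) : ℝ) ≤ _ ∧ _ ≤ ((((n : ℕ) : ℤ) + 1 : ℤ) : ℝ)
    push_cast
    constructor <;> linarith
  | T j a b =>
    obtain ⟨h1, h2⟩ := (show (a : ℝ) ≤ 2 ^ 48 * κ ∧ 2 ^ 48 * κ ≤ (b : ℝ) from h)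
    show (((a : ℕ) : ℤ) : ℝ) ≤ _ ∧ _ ≤ (((b : ℕ) : ℤ) : ℝ)
    push_cast
    exact ⟨h1, h2⟩

section

variable {L rc : ℤ} {s0 s1 : KS} {lo hi n : ℕ} {x y z : ℤ}

/-- the facts of the test at a point -/
theorem chkX_ok (h : chkX L rc s0 s1 lo hi n x y z = true) (hlh : lo < hi) {k0 k1 k2 : ℝ}
    (h0 : s0.ok k0) (h1 : s1.ok k1) (h2 : (lo : ℝ) ≤ 2 ^ 48 * k2) (h3 : 2 ^ 48 * k2 ≤ (hi : ℝ)) :
    (0 < KK k0 k1 k2 ∧ (L : ℝ) / 2 ^ 48 < (4 - k2 ^ 2 - k0 ^ 2 * k1 ^ 2) / (k0 * k1 * k2) ∧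
      0 < 12 * KK k0 k1 k2 * ((L : ℝ) / 2 ^ 48) + SS k0 k1 k2 ^ 2 + 12 * SS k0 k1 k2) ∧
    (fBx (SS k0 k1 k2) (KK k0 k1 k2) (L / 2 ^ 48) ≤ 0 ∧
      0 ≤ fBx (SS k0 k1 k2) (KK k0 k1 k2) ((L + 2 * rc) / 2 ^ 48)) ∧
    (L : ℝ) + n < q3 x y z (par lo hi k2) ∧
    0 ≤ fBx (SS k0 k1 k2) (KK k0 k1 k2) ((q3 x y z (par lo hi k2) + n) / 2 ^ 48) ∧
    fBx (SS k0 k1 k2) (KK k0 k1 k2) ((q3 x y z (par lo hi k2) - n) / 2 ^ 48) ≤ 0 := by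
  unfold chkX at h
  simp only [Bool.and_eq_true] at h
  obtain ⟨g0, g1, g2, g3⟩ := h
  obtain ⟨m1, m2, m3⟩ := of_decide_eq_true g0
  obtain ⟨t0, a0, a1, a2⟩ := true_par h0
  obtain ⟨t1, b0, b1, b2⟩ := true_par h1
  obtain ⟨p1, p2⟩ := par_01 hlh h2 h3
  have c2 := chkB_cl g2 (t := t0) (u := t1) (v := par lo hi k2) ⟨a0, a1⟩ ⟨b0, b1⟩ p1 a2 b2 p2
  have c3 := chkB_cl g3 (t := t0) (u := t1) (v := par lo hi k2) ⟨a0, a1⟩ ⟨b0, b1⟩ p1 a2 b2 p2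
  rw [Qf_XC3, ← add_div, ← sub_div] at c2 c3
  have e1 : q3 ((L + rc : ℤ) : ℝ) ((L + rc : ℤ) : ℝ) ((L + rc : ℤ) : ℝ) (par lo hi k2) + rc =
      L + 2 * rc := by
    rw [q3_const]
    push_cast
    ring
  have e2 : q3 ((L + rc : ℤ) : ℝ) ((L + rc : ℤ) : ℝ) ((L + rc : ℤ) : ℝ) (par lo hi k2) - rc =
      L := by
    rw [q3_const]
    push_cast
    ring
  rw [e1, e2] at c2
  have n1 : (L : ℝ) + n + 1 ≤ x := by exact_mod_cast m1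
  have n2 : (L : ℝ) + n + 1 ≤ y := by exact_mod_cast m2
  have n3 : (L : ℝ) + n + 1 ≤ z := by exact_mod_cast m3
  have q := q3_ge n1 n2 n3 p1.1 p1.2
  refine ⟨tA_real g1 (kls h0) (kls h1) ⟨?_, ?_⟩, ⟨c2.2, c2.1⟩, by linarith, ?_, ?_⟩
  · push_cast
    exact h2
  · push_cast
    exact h3
  · have := c3.1
    simpa using this
  · have := c3.2
    simpa using this

/-- THE ROOT NEAR THE POLYNOMIAL -/
theorem pin (h : chkX L rc s0 s1 lo hi n x y z = true) (hlh : lo < hi) {k0 k1 k2 x0 : ℝ}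
    (h0 : s0.ok k0) (h1 : s1.ok k1) (h2 : (lo : ℝ) ≤ 2 ^ 48 * k2) (h3 : 2 ^ 48 * k2 ≤ (hi : ℝ))
    (hf : fBx (SS k0 k1 k2) (KK k0 k1 k2) x0 = 0)
    (hx : (4 - k2 ^ 2 - k0 ^ 2 * k1 ^ 2) / (k0 * k1 * k2) ≤ x0) :
    |2 ^ 48 * x0 - q3 x y z (par lo hi k2)| ≤ (n : ℝ) := by
  obtain ⟨⟨a1, a2, a3⟩, ⟨b1, b2⟩, c, d1, d2⟩ := chkX_ok h hlh h0 h1 h2 h3
  have hn : (0 : ℝ) ≤ n := Nat.cast_nonneg n
  have hp : (0 : ℝ) < 2 ^ 48 := by positivity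
  have l0 : (L : ℝ) / 2 ^ 48 < x0 := lt_of_lt_of_le a2 hx
  have r1 := root_P a1 a3 b1 hf l0 (by
    rw [div_lt_div_iff_of_pos_right hp]
    linarith) d1
  have r2 := root_N a1 a3 b1 hf l0 (by
    rw [div_lt_div_iff_of_pos_right hp]
    linarith) d2
  rw [le_div_iff₀ hp] at r1
  rw [div_le_iff₀ hp] at r2
  rw [abs_le]
  constructor <;> linarith

/-- the hypothesis `hX` of the modules, all orders of the box -/
theorem hX_of (h : chkX L rc s0 s1 lo hi n x y z = true) (hlh : lo < hi) {p q r : ℕ}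
    (h0 : s0.ok (Kp p)) (h1 : s1.ok (Kp q)) (h2 : (lo : ℝ) ≤ 2 ^ 48 * Kp r)
    (h3 : 2 ^ 48 * Kp r ≤ (hi : ℝ)) {x0 : ℝ} (hT : Thr p q r x0) (hf : fB p q r x0 = 0) :
    |2 ^ 48 * x0 - q3 x y z (par lo hi (Kp r))| ≤ (n : ℝ) := by
  refine pin h hlh h0 h1 h2 h3 ?_ ?_
  · rw [fB_eq] at hf
    exact hf
  · rw [← Pool.Agent.Helper6.MONO.xA_eq]
    exact hT.A1

/-- `x_A` lies below the polynomial minus `n` on the box, the polynomial plus `n` is negative -/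
def chkA (s0 s1 : KS) (lo hi n : ℕ) (x y z : ℤ) : Bool :=
  decide (0 < kl s0 ∧ 0 < kl s1 ∧ 0 < lo) &&
    (decide (x + (n : ℤ) ≤ 0 ∧ y + (n : ℤ) ≤ 0 ∧ z + (n : ℤ) ≤ 0) &&
      chkA1 (min x (min y z) - n) (kl s0 * kl s1) hi)

theorem chkA1_ok {m ml hi : ℤ} (h : chkA1 m ml hi = true) {M C : ℝ} (hM : (ml : ℝ) ≤ M)
    (hC : C ≤ (hi : ℝ)) : 0 ≤ M ^ 2 + C ^ 2 * 2 ^ 96 - 4 * 2 ^ 192 + m * M * C := by
  obtain ⟨h0, h1, h2, h3⟩ := of_decide_eq_true h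
  rw [u2] at h2 h3
  rw [u4] at h3
  have r0 : (m : ℝ) < 0 := by exact_mod_cast h0
  have r1 : (0 : ℝ) ≤ 2 * ml + m * hi := by exact_mod_cast h1
  have r2 : 2 * (hi : ℝ) * 2 ^ 96 + m * ml ≤ 0 := by exact_mod_cast h2
  have r3 : (0 : ℝ) ≤ (ml : ℝ) ^ 2 + (hi : ℝ) ^ 2 * 2 ^ 96 - 4 * 2 ^ 192 + m * ml * hi := by
    exact_mod_cast h3
  have d1 : 0 ≤ (M - ml) * (M + ml + m * C) := by
    refine mul_nonneg (by linarith) ?_
    nlinarith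
  have d2 : 0 ≤ (hi - C) * -((C + hi) * 2 ^ 96 + m * ml) := by
    refine mul_nonneg (by linarith) ?_
    nlinarith
  have e : M ^ 2 + C ^ 2 * 2 ^ 96 - 4 * 2 ^ 192 + m * M * C =
      ((ml : ℝ) ^ 2 + (hi : ℝ) ^ 2 * 2 ^ 96 - 4 * 2 ^ 192 + m * ml * hi) +
      (M - ml) * (M + ml + m * C) + (hi - C) * -((C + hi) * 2 ^ 96 + m * ml) := by ring
  rw [e]
  linarith

theorem q3_le {x y z m s : ℝ} (hx : x ≤ m) (hy : y ≤ m) (hz : z ≤ m) (h0 : 0 ≤ s) (h1 : s ≤ 1) :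
    q3 x y z s ≤ m := by
  have h := q3_ge (x := -x) (y := -y) (z := -z) (m := -m) (by linarith) (by linarith) (by linarith)
    h0 h1
  have e : q3 (-x) (-y) (-z) s = -q3 x y z s := by
    unfold q3
    ring
  rw [e] at h
  linarith

/-- the order conditions -/
theorem chkA_ok (h : chkA s0 s1 lo hi n x y z = true) (hlh : lo < hi) {k0 k1 k2 : ℝ}
    (h0 : s0.ok k0) (h1 : s1.ok k1) (h2 : (lo : ℝ) ≤ 2 ^ 48 * k2) (h3 : 2 ^ 48 * k2 ≤ (hi : ℝ)) :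
    (4 - k2 ^ 2 - k0 ^ 2 * k1 ^ 2) / (k0 * k1 * k2) ≤ (q3 x y z (par lo hi k2) - n) / 2 ^ 48 ∧
      (q3 x y z (par lo hi k2) + n) / 2 ^ 48 ≤ 0 := by
  unfold chkA at h
  simp only [Bool.and_eq_true] at h
  obtain ⟨g0, g1, g2⟩ := h
  obtain ⟨p1, -⟩ := par_01 hlh h2 h3
  obtain ⟨a1, a2, a3⟩ := of_decide_eq_true g0
  obtain ⟨b1, b2, b3⟩ := of_decide_eq_true g1
  have r1 : (0 : ℝ) < kl s0 := by exact_mod_cast a1
  have r2 : (0 : ℝ) < kl s1 := by exact_mod_cast a2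
  have r3 : (0 : ℝ) < lo := by exact_mod_cast a3
  have c0 := kls h0
  have c1 := kls h1
  have q1 : 0 < k0 := by
    by_contra hc
    push Not at hc
    nlinarith
  have q2 : 0 < k1 := by
    by_contra hc
    push Not at hc
    nlinarith
  have q3' : 0 < k2 := by
    by_contra hc
    push Not at hc
    nlinarith
  have pK : 0 < k0 * k1 * k2 := mul_pos (mul_pos q1 q2) q3'
  have hm : ((min x (min y z) - (n : ℤ) : ℤ) : ℝ) ≤ q3 x y z (par lo hi k2) - n := by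
    push_cast
    have := q3_ge (x := x) (y := y) (z := z) (m := min (x : ℝ) (min (y : ℝ) (z : ℝ)))
      (min_le_left _ _) ((min_le_right _ _).trans (min_le_left _ _))
      ((min_le_right _ _).trans (min_le_right _ _)) p1.1 p1.2
    linarith
  have hp : (0 : ℝ) < 2 ^ 48 := by positivity
  constructor
  · have hM : ((kl s0 * kl s1 : ℤ) : ℝ) ≤ 2 ^ 48 * k0 * (2 ^ 48 * k1) := by
      push_cast
      exact mul_le_mul c0.1 c1.1 r2.le (r1.le.trans c0.1)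
    have k := chkA1_ok g2 hM (C := 2 ^ 48 * k2) (by push_cast; exact h3)
    generalize ((min x (min y z) - (n : ℤ) : ℤ) : ℝ) = m at *
    have e : (2 ^ 48 * k0 * (2 ^ 48 * k1)) ^ 2 + (2 ^ 48 * k2) ^ 2 * 2 ^ 96 - 4 * 2 ^ 192 +
        m * (2 ^ 48 * k0 * (2 ^ 48 * k1)) * (2 ^ 48 * k2) =
        2 ^ 192 * (k0 ^ 2 * k1 ^ 2 + k2 ^ 2 - 4 + m / 2 ^ 48 * (k0 * k1 * k2)) := by
      ring
    rw [e] at k
    have k2' := nonneg_of_mul_nonneg_right k (by positivity)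
    rw [div_le_iff₀ pK]
    have k3 : m / 2 ^ 48 * (k0 * k1 * k2) ≤
        (q3 x y z (par lo hi k2) - n) / 2 ^ 48 * (k0 * k1 * k2) :=
      mul_le_mul_of_nonneg_right (div_le_div_of_nonneg_right hm hp.le) pK.le
    linarith
  · have n1 : (x : ℝ) ≤ -n := by
      have : (x : ℝ) + n ≤ 0 := by exact_mod_cast b1
      linarith
    have n2 : (y : ℝ) ≤ -n := by
      have : (y : ℝ) + n ≤ 0 := by exact_mod_cast b2
      linarith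
    have n3 : (z : ℝ) ≤ -n := by
      have : (z : ℝ) + n ≤ 0 := by exact_mod_cast b3
      linarith
    have := q3_le n1 n2 n3 p1.1 p1.2
    exact div_nonpos_of_nonpos_of_nonneg (by linarith) hp.le

/-- THE THRESHOLD EXISTS, for all orders of the box -/
theorem thr_ex (h : chkX L rc s0 s1 lo hi n x y z = true) (hA : chkA s0 s1 lo hi n x y z = true)
    (hlh : lo < hi) {p q r : ℕ} (hp : 3 ≤ p) (hpq : p ≤ q) (hqr : q ≤ r)
    (h0 : s0.ok (Kp p)) (h1 : s1.ok (Kp q)) (h2 : (lo : ℝ) ≤ 2 ^ 48 * Kp r)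
    (h3 : 2 ^ 48 * Kp r ≤ (hi : ℝ)) : ∃ x0 : ℝ, Thr p q r x0 ∧ fB p q r x0 = 0 := by
  obtain ⟨-, -, -, d1, d2⟩ := chkX_ok h hlh h0 h1 h2 h3
  obtain ⟨e1, e2⟩ := chkA_ok hA hlh h0 h1 h2 h3
  have hn : (0 : ℝ) ≤ n := Nat.cast_nonneg n
  set Q := q3 x y z (par lo hi (Kp r)) with hQ
  have hle : (Q - n) / 2 ^ 48 ≤ (Q + n) / 2 ^ 48 :=
    div_le_div_of_nonneg_right (by linarith) (by positivity)
  have hc : Continuous fun s : ℝ => fBx (SS (Kp p) (Kp q) (Kp r)) (KK (Kp p) (Kp q) (Kp r)) s :=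
    fBx_cont continuous_const continuous_const continuous_id
  obtain ⟨x0, hx, hf⟩ := intermediate_value_Icc hle hc.continuousOn (⟨d2, d1⟩ :
    (0 : ℝ) ∈ Set.Icc _ _)
  have hf' : fB p q r x0 = 0 := by
    rw [fB_eq]
    exact hf
  have hxA : xA p q r ≤ x0 := by
    rw [Pool.Agent.Helper6.MONO.xA_eq]
    exact e1.trans hx.1
  obtain ⟨m1, m2⟩ := Pool.Agent.Helper6.MONO.xA_max' hp hpq hqr
  refine ⟨x0, ⟨?_, ?_, hxA, m2.trans hxA, m1.trans hxA, ?_, Or.inr (Or.inr (Or.inr hf'))⟩, hf'⟩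
  · exact lt_of_lt_of_le (xA_gt hp (hp.trans hpq) hqr) hxA
  · have := hx.2.trans e2
    linarith
  · rw [hf']

/-- the sign left of the threshold -/
theorem f_neg (h : chkX L rc s0 s1 lo hi n x y z = true) (hlh : lo < hi) {p q r : ℕ}
    (h0 : s0.ok (Kp p)) (h1 : s1.ok (Kp q)) (h2 : (lo : ℝ) ≤ 2 ^ 48 * Kp r)
    (h3 : 2 ^ 48 * Kp r ≤ (hi : ℝ)) {x0 : ℝ} (hT : Thr p q r x0) (hf : fB p q r x0 = 0) {x1 : ℝ}
    (hx1 : x1 < x0) : ∃ x : ℝ, x1 ≤ x ∧ x < x0 ∧ fB p q r x < 0 := by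
  obtain ⟨⟨a1, a2, a3⟩, ⟨b1, -⟩, -, -, -⟩ := chkX_ok h hlh h0 h1 h2 h3
  have l0 : (L : ℝ) / 2 ^ 48 < x0 := by
    refine lt_of_lt_of_le a2 ?_
    rw [← Pool.Agent.Helper6.MONO.xA_eq]
    exact hT.A1
  have hf' : fBx (SS (Kp p) (Kp q) (Kp r)) (KK (Kp p) (Kp q) (Kp r)) x0 = 0 := by
    rw [fB_eq] at hf
    exact hf
  refine ⟨max x1 ((L / 2 ^ 48 + x0) / 2), le_max_left _ _, max_lt hx1 (by linarith), ?_⟩
  rw [fB_eq]
  by_contra hc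
  push Not at hc
  have hl : (L : ℝ) / 2 ^ 48 < max x1 ((L / 2 ^ 48 + x0) / 2) :=
    lt_of_lt_of_le (by linarith) (le_max_right _ _)
  have := root_P a1 a3 b1 hf' l0 hl hc
  have hm : max x1 ((L / 2 ^ 48 + x0) / 2) < x0 := max_lt hx1 (by linarith)
  linarith

/-- THE CLAUSE OF THE CERTIFICATE, for all orders of the box -/
theorem certX (h : chkX L rc s0 s1 lo hi n x y z = true) (hA : chkA s0 s1 lo hi n x y z = true)
    (hlh : lo < hi) {p q r : ℕ} (hp : 3 ≤ p) (hpq : p ≤ q) (hqr : q ≤ r)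
    (h0 : s0.ok (Kp p)) (h1 : s1.ok (Kp q)) (h2 : (lo : ℝ) ≤ 2 ^ 48 * Kp r)
    (h3 : 2 ^ 48 * Kp r ≤ (hi : ℝ))
    (hZ : ∀ x0 : ℝ, Thr p q r x0 → fB p q r x0 = 0 → ZF p q r x0) : CertAt p q r := by
  obtain ⟨x0, hT, hf⟩ := thr_ex h hA hlh hp hpq hqr h0 h1 h2 h3
  refine ⟨x0, hT.gt, fun x1 hx1 => ?_, hZ x0 hT hf⟩
  obtain ⟨x, g1, g2, g3⟩ := f_neg h hlh h0 h1 h2 h3 hT hf hx1
  exact ⟨x, g1, g2.le, g2.le.trans hT.le, Or.inr g3⟩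

/-- the hypothesis `hX` from the labels -/
theorem hX_lb (h : chkX L rc s0 s1 lo hi n x y z = true) (hlh : Nat.blt lo hi = true) {a b : Lb}
    (w0 : mat s0 a = true) (w1 : mat s1 b = true) {p q r : ℕ} (ha : a.has p) (hb : b.has q)
    (hc : (Lb.tl lo hi).has r) {x0 : ℝ} (hT : Thr p q r x0) (hf : fB p q r x0 = 0) :
    |2 ^ 48 * x0 - q3 x y z (par lo hi (Kp r))| ≤ (n : ℝ) :=
  hX_of h (Nat.le_of_ble_eq_true hlh) (mat_ok w0 ha) (mat_ok w1 hb) hc.2.1 hc.2.2 hT hf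

end

end Pool.Agent.Helper57.XL
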