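import Pool.Agent.Helper57.XL.B
import Pool.Agent.Helper81.MIT.K15

/-!
The rows `(p, q, r)`, `r ≥ 15`, whose threshold is `x_B` up to an order of the tail: existence of the
threshold and the clause of the certificate, from one test for each row.
-/

set_option autoImplicit false
set_option exponentiation.threshold 4000
noncomputable section
namespace Pool.Agent.Helper57.XL

open Pool.Agent.Helper81.MIT
open Pool.Agent.Helper6.MONO (fB Kp Thr CertAt ZF)
open Pool.Agent.Helper21.KTE (KS)

theorem okx (M : ℕ) (h3 : 3 ≤ M) (h15 : M ≤ 15) {n : ℕ} (h : kbx M = n) :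
    (KS.E n).ok (Kp M) := by
  have h1 := kapx M h3 h15
  rw [h] at h1
  show |2 ^ 48 * Kp M - (n : ℝ)| ≤ 1
  have e : 2 ^ 48 * Kp M - (n : ℝ) = 2 ^ 48 * (Kp M - (n : ℝ) / 2 ^ 48) := by
    field_simp
  rw [e, abs_mul, abs_of_pos (by positivity : (0 : ℝ) < 2 ^ 48)]
  have h2 := mul_le_mul_of_nonneg_left h1 (by positivity : (0 : ℝ) ≤ 2 ^ 48)
  refine h2.trans (le_of_eq ?_)
  norm_num

theorem lo15 {r : ℕ} (hr : 15 ≤ r) : ((550648146272263 : ℕ) : ℝ) ≤ 2 ^ 48 * Kp r := by
  have h := (Pool.Agent.Helper6.MONO.kap_15t r hr).1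
  rw [div_le_iff₀ (by positivity)] at h
  push_cast
  linarith

theorem hi2 {r : ℕ} (hr : 15 ≤ r) : 2 ^ 48 * Kp r ≤ ((562949953421312 : ℕ) : ℝ) := by
  have h := (Pool.Agent.Helper6.MONO.kap_15t r hr).2
  push_cast
  have := mul_le_mul_of_nonneg_left h (by positivity : (0 : ℝ) ≤ 2 ^ 48)
  refine this.trans (le_of_eq ?_)
  norm_num

theorem ck_11_13 : chkX (-539000000000000) 8000000000000 (KS.E 540146524804357) (KS.E 546591650894800) 550648146272263 551123268616948 53551
    (-528954800510352) (-528988608723006) (-529022060322379) = true := by decide +kernel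
theorem ca_11_13 : chkA (KS.E 540146524804357) (KS.E 546591650894800) 550648146272263 551123268616948 53551
    (-528954800510352) (-528988608723006) (-529022060322379) = true := by decide +kernel

/-- the row `(11, 13, r)`, orders with `2 ^ 48 κ ≤ 551123268616948`: the threshold exists -/
theorem ex_11_13 {r : ℕ} (hr : 15 ≤ r) (hk : 2 ^ 48 * Kp r ≤ 551123268616948) :
    ∃ x0 : ℝ, Thr 11 13 r x0 ∧ fB 11 13 r x0 = 0 :=
  thr_ex ck_11_13 ca_11_13 (by norm_num) (by norm_num) (by norm_num) (by omega) (okx 11 (by norm_num) (by norm_num) rfl)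
    (okx 13 (by norm_num) (by norm_num) rfl) (lo15 hr) (by exact_mod_cast hk)

/-- the clause of the certificate -/
theorem cert_11_13 {r : ℕ} (hr : 15 ≤ r) (hk : 2 ^ 48 * Kp r ≤ 551123268616948)
    (hZ : ∀ x0 : ℝ, Thr 11 13 r x0 → fB 11 13 r x0 = 0 → ZF 11 13 r x0) : CertAt 11 13 r :=
  certX ck_11_13 ca_11_13 (by norm_num) (by norm_num) (by norm_num) (by omega) (okx 11 (by norm_num) (by norm_num) rfl)
    (okx 13 (by norm_num) (by norm_num) rfl) (lo15 hr) (by exact_mod_cast hk) hZ

theorem ck_11_14 : chkX (-539000000000000) 8000000000000 (KS.E 540146524804357) (KS.E 548835622751895) 550648146272263 554666138901461 31019252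
    (-529304158205702) (-529594062732635) (-529859352701542) = true := by decide +kernel
theorem ca_11_14 : chkA (KS.E 540146524804357) (KS.E 548835622751895) 550648146272263 554666138901461 31019252
    (-529304158205702) (-529594062732635) (-529859352701542) = true := by decide +kernel

/-- the row `(11, 14, r)`, orders with `2 ^ 48 κ ≤ 554666138901461`: the threshold exists -/
theorem ex_11_14 {r : ℕ} (hr : 15 ≤ r) (hk : 2 ^ 48 * Kp r ≤ 554666138901461) :
    ∃ x0 : ℝ, Thr 11 14 r x0 ∧ fB 11 14 r x0 = 0 :=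
  thr_ex ck_11_14 ca_11_14 (by norm_num) (by norm_num) (by norm_num) (by omega) (okx 11 (by norm_num) (by norm_num) rfl)
    (okx 14 (by norm_num) (by norm_num) rfl) (lo15 hr) (by exact_mod_cast hk)

/-- the clause of the certificate -/
theorem cert_11_14 {r : ℕ} (hr : 15 ≤ r) (hk : 2 ^ 48 * Kp r ≤ 554666138901461)
    (hZ : ∀ x0 : ℝ, Thr 11 14 r x0 → fB 11 14 r x0 = 0 → ZF 11 14 r x0) : CertAt 11 14 r :=
  certX ck_11_14 ca_11_14 (by norm_num) (by norm_num) (by norm_num) (by omega) (okx 11 (by norm_num) (by norm_num) rfl)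
    (okx 14 (by norm_num) (by norm_num) rfl) (lo15 hr) (by exact_mod_cast hk) hZ

theorem ck_12_12 : chkX (-539000000000000) 8000000000000 (KS.E 543767898917873) (KS.E 543767898917873) 550648146272263 552428674836872 2738012
    (-529136497358871) (-529263505068130) (-529385597966374) = true := by decide +kernel
theorem ca_12_12 : chkA (KS.E 543767898917873) (KS.E 543767898917873) 550648146272263 552428674836872 2738012
    (-529136497358871) (-529263505068130) (-529385597966374) = true := by decide +kernel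

/-- the row `(12, 12, r)`, orders with `2 ^ 48 κ ≤ 552428674836872`: the threshold exists -/
theorem ex_12_12 {r : ℕ} (hr : 15 ≤ r) (hk : 2 ^ 48 * Kp r ≤ 552428674836872) :
    ∃ x0 : ℝ, Thr 12 12 r x0 ∧ fB 12 12 r x0 = 0 :=
  thr_ex ck_12_12 ca_12_12 (by norm_num) (by norm_num) (by norm_num) (by omega) (okx 12 (by norm_num) (by norm_num) rfl)
    (okx 12 (by norm_num) (by norm_num) rfl) (lo15 hr) (by exact_mod_cast hk)

/-- the clause of the certificate -/
theorem cert_12_12 {r : ℕ} (hr : 15 ≤ r) (hk : 2 ^ 48 * Kp r ≤ 552428674836872)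
    (hZ : ∀ x0 : ℝ, Thr 12 12 r x0 → fB 12 12 r x0 = 0 → ZF 12 12 r x0) : CertAt 12 12 r :=
  certX ck_12_12 ca_12_12 (by norm_num) (by norm_num) (by norm_num) (by omega) (okx 12 (by norm_num) (by norm_num) rfl)
    (okx 12 (by norm_num) (by norm_num) rfl) (lo15 hr) (by exact_mod_cast hk) hZ

theorem ck_12_13 : chkX (-539000000000000) 8000000000000 (KS.E 543767898917873) (KS.E 546591650894800) 550648146272263 556786372309600 105665424
    (-529606651923046) (-530050968752622) (-530439526338635) = true := by decide +kernel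
theorem ca_12_13 : chkA (KS.E 543767898917873) (KS.E 546591650894800) 550648146272263 556786372309600 105665424
    (-529606651923046) (-530050968752622) (-530439526338635) = true := by decide +kernel

/-- the row `(12, 13, r)`, orders with `2 ^ 48 κ ≤ 556786372309600`: the threshold exists -/
theorem ex_12_13 {r : ℕ} (hr : 15 ≤ r) (hk : 2 ^ 48 * Kp r ≤ 556786372309600) :
    ∃ x0 : ℝ, Thr 12 13 r x0 ∧ fB 12 13 r x0 = 0 :=
  thr_ex ck_12_13 ca_12_13 (by norm_num) (by norm_num) (by norm_num) (by omega) (okx 12 (by norm_num) (by norm_num) rfl)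
    (okx 13 (by norm_num) (by norm_num) rfl) (lo15 hr) (by exact_mod_cast hk)

/-- the clause of the certificate -/
theorem cert_12_13 {r : ℕ} (hr : 15 ≤ r) (hk : 2 ^ 48 * Kp r ≤ 556786372309600)
    (hZ : ∀ x0 : ℝ, Thr 12 13 r x0 → fB 12 13 r x0 = 0 → ZF 12 13 r x0) : CertAt 12 13 r :=
  certX ck_12_13 ca_12_13 (by norm_num) (by norm_num) (by norm_num) (by omega) (okx 12 (by norm_num) (by norm_num) rfl)
    (okx 13 (by norm_num) (by norm_num) rfl) (lo15 hr) (by exact_mod_cast hk) hZ

theorem ck_12_14 : chkX (-539000000000000) 8000000000000 (KS.E 543767898917873) (KS.E 548835622751895) 550648146272263 560261767300153 388950499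
    (-529960775275492) (-530663964177567) (-531235082952547) = true := by decide +kernel
theorem ca_12_14 : chkA (KS.E 543767898917873) (KS.E 548835622751895) 550648146272263 560261767300153 388950499
    (-529960775275492) (-530663964177567) (-531235082952547) = true := by decide +kernel

/-- the row `(12, 14, r)`, orders with `2 ^ 48 κ ≤ 560261767300153`: the threshold exists -/
theorem ex_12_14 {r : ℕ} (hr : 15 ≤ r) (hk : 2 ^ 48 * Kp r ≤ 560261767300153) :
    ∃ x0 : ℝ, Thr 12 14 r x0 ∧ fB 12 14 r x0 = 0 :=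
  thr_ex ck_12_14 ca_12_14 (by norm_num) (by norm_num) (by norm_num) (by omega) (okx 12 (by norm_num) (by norm_num) rfl)
    (okx 14 (by norm_num) (by norm_num) rfl) (lo15 hr) (by exact_mod_cast hk)

/-- the clause of the certificate -/
theorem cert_12_14 {r : ℕ} (hr : 15 ≤ r) (hk : 2 ^ 48 * Kp r ≤ 560261767300153)
    (hZ : ∀ x0 : ℝ, Thr 12 14 r x0 → fB 12 14 r x0 = 0 → ZF 12 14 r x0) : CertAt 12 14 r :=
  certX ck_12_14 ca_12_14 (by norm_num) (by norm_num) (by norm_num) (by omega) (okx 12 (by norm_num) (by norm_num) rfl)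
    (okx 14 (by norm_num) (by norm_num) rfl) (lo15 hr) (by exact_mod_cast hk) hZ

theorem ck_13_13 : chkX (-539000000000000) 8000000000000 (KS.E 546591650894800) (KS.E 546591650894800) 550648146272263 561128881692381 495024496
    (-530081425266105) (-530848790199129) (-531460980413010) = true := by decide +kernel
theorem ca_13_13 : chkA (KS.E 546591650894800) (KS.E 546591650894800) 550648146272263 561128881692381 495024496
    (-530081425266105) (-530848790199129) (-531460980413010) = true := by decide +kernel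

/-- the row `(13, 13, r)`, orders with `2 ^ 48 κ ≤ 561128881692381`: the threshold exists -/
theorem ex_13_13 {r : ℕ} (hr : 15 ≤ r) (hk : 2 ^ 48 * Kp r ≤ 561128881692381) :
    ∃ x0 : ℝ, Thr 13 13 r x0 ∧ fB 13 13 r x0 = 0 :=
  thr_ex ck_13_13 ca_13_13 (by norm_num) (by norm_num) (by norm_num) (by omega) (okx 13 (by norm_num) (by norm_num) rfl)
    (okx 13 (by norm_num) (by norm_num) rfl) (lo15 hr) (by exact_mod_cast hk)

/-- the clause of the certificate -/
theorem cert_13_13 {r : ℕ} (hr : 15 ≤ r) (hk : 2 ^ 48 * Kp r ≤ 561128881692381)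
    (hZ : ∀ x0 : ℝ, Thr 13 13 r x0 → fB 13 13 r x0 = 0 → ZF 13 13 r x0) : CertAt 13 13 r :=
  certX ck_13_13 ca_13_13 (by norm_num) (by norm_num) (by norm_num) (by omega) (okx 13 (by norm_num) (by norm_num) rfl)
    (okx 13 (by norm_num) (by norm_num) rfl) (lo15 hr) (by exact_mod_cast hk) hZ

theorem ck_13_14 : chkX (-539000000000000) 8000000000000 (KS.E 546591650894800) (KS.E 548835622751895) 550648146272263 562949953421312 790720625
    (-530439161334208) (-531348381118641) (-532048243931059) = true := by decide +kernel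
theorem ca_13_14 : chkA (KS.E 546591650894800) (KS.E 548835622751895) 550648146272263 562949953421312 790720625
    (-530439161334208) (-531348381118641) (-532048243931059) = true := by decide +kernel

/-- the row `(13, 14, r)`, orders with `2 ^ 48 κ ≤ 562949953421312`: the threshold exists -/
theorem ex_13_14 {r : ℕ} (hr : 15 ≤ r) :
    ∃ x0 : ℝ, Thr 13 14 r x0 ∧ fB 13 14 r x0 = 0 :=
  thr_ex ck_13_14 ca_13_14 (by norm_num) (by norm_num) (by norm_num) (by omega) (okx 13 (by norm_num) (by norm_num) rfl)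
    (okx 14 (by norm_num) (by norm_num) rfl) (lo15 hr) (hi2 hr)

/-- the clause of the certificate -/
theorem cert_13_14 {r : ℕ} (hr : 15 ≤ r)
    (hZ : ∀ x0 : ℝ, Thr 13 14 r x0 → fB 13 14 r x0 = 0 → ZF 13 14 r x0) : CertAt 13 14 r :=
  certX ck_13_14 ca_13_14 (by norm_num) (by norm_num) (by norm_num) (by omega) (okx 13 (by norm_num) (by norm_num) rfl)
    (okx 14 (by norm_num) (by norm_num) rfl) (lo15 hr) (hi2 hr) hZ

end Pool.Agent.Helper57.XL
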